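import Pool.Agent.UH.Kall

set_option autoImplicit false

/-!
Exactly three Hamilton cycles and unique 3-edge-colourability for cubic plane graphs whose faces of length at
least 7 are pairwise far apart. The definitions `IsRotation`, `facePerm`, `numFaces`, `faceLen`, `FaceDistLE` are in
`Pool.Agent.UH.ADef`.
-/

namespace Pool.Agent.Results.MP_885a53_co.FarFaces

open Pool.Agent.UH

/-- Let `G` be a finite connected simple cubic graph with a rotation system `ρ` of genus 0 (Euler's formula), in which
two distinct faces of length at least 7 are at distance at least 4 in the dual graph. Then `G` is uniquely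
3-edge-colourable if and only if it has exactly three Hamilton cycles. -/
theorem result :
    ∀ (V : Type) [Fintype V] [DecidableEq V] (G : SimpleGraph V) [DecidableRel G.Adj],
      G.Connected → G.IsRegularOfDegree 3 →
      ∀ ρ : Equiv.Perm G.Dart, IsRotation G ρ →
      Fintype.card V + numFaces ρ = G.edgeFinset.card + 2 →
      (∀ d e : G.Dart, 7 ≤ faceLen ρ d → 7 ≤ faceLen ρ e → FaceDistLE ρ 3 d e → (facePerm ρ).SameCycle d e) →
      ((∃ c : Sym2 V → Fin 3,
          (∀ u v w : V, G.Adj u v → G.Adj u w → v ≠ w → c s(u, v) ≠ c s(u, w)) ∧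
          ∀ c' : Sym2 V → Fin 3,
            (∀ u v w : V, G.Adj u v → G.Adj u w → v ≠ w → c' s(u, v) ≠ c' s(u, w)) →
            ∃ σ : Equiv.Perm (Fin 3), ∀ e ∈ G.edgeSet, c' e = σ (c e))
        ↔ {S : Set (Sym2 V) | ∃ (u : V) (p : G.Walk u u),
              p.IsHamiltonianCycle ∧ S = {e | e ∈ p.edges}}.ncard = 3) := by
  intro V _ _ G _ hc h3 ρ hρ he hf
  exact graph_main kills G hc h3 ρ hρ he hf

end Pool.Agent.Results.MP_885a53_co.FarFaces
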